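import Pool.Agent.helper94.AP.SpecM

set_option autoImplicit false

namespace Pool.Agent.AP

open Finset NumberField Pool.Agent.helper3.FT Pool.Agent.helper47.RA Pool.Agent.T5

theorem MX_2 {w : ℕ} (hw : 2 ≤ w) : 2 ∈ pr w := by
  unfold pr
  simp [Nat.prime_two, hw]

theorem MX_16 (w : ℕ) : (16 : ℤ) ∣ (LL w : ℤ) := by
  exact_mod_cast (Dvd.intro _ rfl : 16 ∣ LL w)

theorem MX_q {w q : ℕ} (hq : q ∈ pr w) (h2 : q ≠ 2) : ((q : ℤ) ^ 2) ∣ (LL w : ℤ) := by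
  have h : q ^ 2 ∣ LL w := by
    unfold LL
    exact Dvd.dvd.mul_left (Finset.dvd_prod_of_mem (fun q => q ^ 2) (mem_erase.2 ⟨h2, hq⟩)) _
  exact_mod_cast h

theorem MX_P {w r : ℕ} (hw : 2 ≤ w) (hr : r ∣ PP w) : (r : ℤ) ∣ (LL w : ℤ) := by
  have h1 : PP w ∣ LL w := by
    unfold PP LL
    rw [← Finset.mul_prod_erase (pr w) (fun q => q) (MX_2 hw)]
    refine mul_dvd_mul (by norm_num) ?_
    exact Finset.prod_dvd_prod_of_dvd _ _ fun q _ => dvd_pow_self q (by norm_num)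
  exact_mod_cast hr.trans h1

theorem MX_per {w r : ℕ} {a b : ℤ} (hw : 2 ≤ w) (hr : r ∣ PP w) (h : (LL w : ℤ) ∣ a - b)
    (H : (r : ℤ) ∣ a ∧ (a % 4 = 0 ∨ a % 4 = 1) ∧ ∀ q ∈ pr w, Pfund q a) :
    (r : ℤ) ∣ b ∧ (b % 4 = 0 ∨ b % 4 = 1) ∧ ∀ q ∈ pr w, Pfund q b := by
  obtain ⟨h1, h2, h3⟩ := H
  have h16 : (16 : ℤ) ∣ a - b := (MX_16 w).trans h
  refine ⟨?_, ?_, ?_⟩
  · have := dvd_sub h1 ((MX_P hw hr).trans h)
    rwa [sub_sub_cancel] at this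
  · omega
  · intro q hq
    have h4 := h3 q hq
    unfold Pfund at h4 ⊢
    by_cases hq2 : q = 2
    · rw [if_pos hq2] at h4 ⊢
      omega
    · rw [if_neg hq2] at h4 ⊢
      intro h5
      apply h4
      have := dvd_add ((MX_q hq hq2).trans h) h5
      rwa [sub_add_cancel] at this

theorem MX_cond {p w r z y : ℕ} (hw : 2 ≤ w) (hr : r ∣ PP w) (hy : 1 ≤ y) {x x' : ℤ} (hM : ((y ^ 2 * LL w : ℕ) : ℤ) ∣ x - x')
    (H : (y : ℤ) ^ 2 ∣ num p (r, z, y, x) ∧ (r : ℤ) ∣ dp p (r, z, y, x) ∧ Loc w p (r, z, y, x)) :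
    (y : ℤ) ^ 2 ∣ num p (r, z, y, x') ∧ (r : ℤ) ∣ dp p (r, z, y, x') ∧ Loc w p (r, z, y, x') := by
  obtain ⟨h1, h2, h3⟩ := H
  have hy0 : ((y : ℤ) ^ 2) ≠ 0 := by positivity
  obtain ⟨k, hk⟩ := hM
  have e1 : num p (r, z, y, x') = num p (r, z, y, x) - (y : ℤ) ^ 2 * ((LL w : ℤ) * (k * (x + x'))) := by
    have : num p (r, z, y, x) - num p (r, z, y, x') = (x - x') * (x + x') := by
      simp only [num]
      ring
    rw [hk] at this
    push_cast at this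
    linear_combination -this
  have d1 : (y : ℤ) ^ 2 ∣ num p (r, z, y, x') := by
    rw [e1]
    exact dvd_sub h1 (Dvd.intro _ rfl)
  have e2 : dp p (r, z, y, x) - dp p (r, z, y, x') = (LL w : ℤ) * (k * (x + x')) := by
    have a1 : dp p (r, z, y, x) * (y : ℤ) ^ 2 = num p (r, z, y, x) := Int.ediv_mul_cancel h1
    have a2 : dp p (r, z, y, x') * (y : ℤ) ^ 2 = num p (r, z, y, x') := Int.ediv_mul_cancel d1
    apply mul_right_cancel₀ hy0
    rw [sub_mul, a1, a2, e1]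
    ring
  have h4 := MX_per hw hr (Dvd.intro _ e2.symm) ⟨h2, h3.1, h3.2⟩
  exact ⟨d1, h4.1, h4.2.1, h4.2.2⟩

theorem MX (hXI : XI_stmt) : MX_stmt := by
  intro p w r z y N hw hr hz hy hN F hF
  have hL1 : 1 ≤ LL w := by
    unfold LL
    refine Nat.one_le_iff_ne_zero.2 (mul_ne_zero (by norm_num) (Finset.prod_ne_zero_iff.2 fun q hq => ?_))
    have hq' : q ∈ pr w := (mem_erase.1 hq).2
    unfold pr at hq'
    have hp : q.Prime := by
      simp only [mem_filter] at hq'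
      exact hq'.2
    exact pow_ne_zero _ hp.ne_zero
  have hM : 1 ≤ y ^ 2 * LL w := Nat.one_le_iff_ne_zero.2 (mul_ne_zero (by positivity) (by omega))
  have hy0 : (0 : ℝ) < y := by exact_mod_cast hy
  classical
  have hyz : (y : ℤ) ^ 2 ≠ 0 := by positivity
  set S : Finset ℕ := (range (y ^ 2 * LL w)).filter (fun x => (y : ℤ) ^ 2 ∣ num p (r, z, y, (x : ℤ)) ∧
    (r : ℤ) ∣ dp p (r, z, y, (x : ℤ)) ∧ Loc w p (r, z, y, (x : ℤ))) with hS
  have hSc : S.card = NC w p r z y := by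
    have hinj : Function.Injective (fun a : ℕ => (a : ℤ)) := fun a b h => Int.ofNat.inj h
    rw [← Finset.card_image_of_injective S hinj, NC]
    refine congrArg Finset.card ?_
    ext x
    simp only [hS, mem_filter, mem_image, Finset.bind_def, Finset.pure_def, Finset.mem_sup, mem_singleton]
    constructor
    · rintro ⟨a, ⟨h1, h2⟩, rfl⟩
      exact ⟨⟨a, h1, rfl⟩, h2⟩
    · rintro ⟨⟨a, h1, rfl⟩, h2⟩
      exact ⟨a, ⟨h1, h2⟩, rfl⟩
  have h := hXI (y ^ 2 * LL w) S hM (Finset.filter_subset _ _) (4 * (r : ℝ) * (z : ℝ) ^ p) N y hN hy0 F (by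
    intro x
    rw [hF x]
    set x0 : ℕ := (x % ((y ^ 2 * LL w : ℕ) : ℤ)).toNat with hx0
    have hMz : (0 : ℤ) < ((y ^ 2 * LL w : ℕ) : ℤ) := by exact_mod_cast hM
    have hx0' : (x0 : ℤ) = x % ((y ^ 2 * LL w : ℕ) : ℤ) := Int.toNat_of_nonneg (Int.emod_nonneg _ hMz.ne')
    have hlt : x0 < y ^ 2 * LL w := by
      have := Int.emod_lt_of_pos x hMz
      rw [← hx0'] at this
      exact_mod_cast this
    have hd : ((y ^ 2 * LL w : ℕ) : ℤ) ∣ x - x0 := by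
      rw [hx0']
      exact Int.dvd_self_sub_emod
    have hd' : ((y ^ 2 * LL w : ℕ) : ℤ) ∣ x0 - x := by
      have := dvd_neg.2 hd
      rwa [neg_sub] at this
    have hmem : x0 ∈ S ↔ ((y : ℤ) ^ 2 ∣ num p (r, z, y, x) ∧ (r : ℤ) ∣ dp p (r, z, y, x) ∧ Loc w p (r, z, y, x)) := by
      rw [hS, mem_filter, mem_range]
      exact ⟨fun h => MX_cond hw hr hy hd' h.2, fun h => ⟨hlt, MX_cond hw hr hy hd h⟩⟩
    have hsize : (y : ℤ) ^ 2 ∣ num p (r, z, y, x) → 4 * (r : ℝ) * (z : ℝ) ^ p - (x : ℝ) ^ 2 = -(dp p (r, z, y, x) : ℝ) * (y : ℝ) ^ 2 := by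
      intro h1
      have a1 : dp p (r, z, y, x) * (y : ℤ) ^ 2 = num p (r, z, y, x) := Int.ediv_mul_cancel h1
      have a2 : (dp p (r, z, y, x) : ℝ) * (y : ℝ) ^ 2 = (x : ℝ) ^ 2 - 4 * (r : ℝ) * (z : ℝ) ^ p := by
        have := congrArg (fun t : ℤ => (t : ℝ)) a1
        simp only [num] at this
        push_cast at this
        exact this
      linarith
    have hy2 : (0 : ℝ) < (y : ℝ) ^ 2 := by positivity
    constructor
    · rintro ⟨h1, h2, h3, h4, h5⟩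
      rw [hsize h1]
      exact ⟨mul_lt_mul_of_pos_right h4 hy2, mul_le_mul_of_nonneg_right h5 hy2.le, hmem.2 ⟨h1, h2, h3⟩⟩
    · rintro ⟨h4, h5, h6⟩
      obtain ⟨h1, h2, h3⟩ := hmem.1 h6
      rw [hsize h1] at h4 h5
      exact ⟨h1, h2, h3, lt_of_mul_lt_mul_right h4 hy2.le, le_of_mul_le_mul_right h5 hy2⟩)
  rw [hSc] at h
  have hc : ((y ^ 2 * LL w : ℕ) : ℝ) = (y : ℝ) ^ 2 * LL w := by push_cast; ring
  rw [hc] at h
  exact h

end Pool.Agent.AP
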